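import Pool.Agent.Helper6.KE.Confine

namespace Pool.Agent.Results.MP_184fc9_ag.Confinement

open CategoryTheory CategoryTheory.Limits CategoryTheory.Pretriangulated
open CategoryTheory.Triangulated Pool.Agent.Helper6.KE

universe v u w

variable {K : Type w} [Field K] {C : Type u} [Category.{v} C] [Preadditive C]
  [HasZeroObject C] [HasShift C ℤ] [∀ n : ℤ, (shiftFunctor C n).Additive] [Pretriangulated C]
  [Linear K C] (D : EnriquesType K C) (L : Fin 10 → C)

/-- All Harder-Narasimhan phases of `X` are in the open interval `(a, b)`. -/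
def PhasesIn (σ : PreStab D L) (a b : ℝ) (X : (Ku L).FullSubcategory) : Prop :=
  ∃ l : List ℝ, HN σ.P l X ∧ ∀ φ ∈ l, a < φ ∧ φ < b

/-- Let `C` be a triangulated category of Enriques type (as `D^b(X)` for an Enriques surface `X`),
with additive class map, and `L` a completely orthogonal collection of ten exceptional objects;
let `σ` be a (pre-)stability condition on `Ku L` with respect to the numerical class. Let `E` be a
nonzero object of `Ku L` such that `W E` is in `Ku L` and `E` (phase `e`) and
`W E` are semistable, let `n` be a vector orthogonal to the classes of all `L i` and of `E`, and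
let `θ` be in the open interval `(e - 1, e)` such that `Z n` is a nonzero real multiple of
`exp(i π θ)`. Then every `G` in `Ku L` with `W G` in `Ku L` and such that all Harder-Narasimhan
phases of `G` and of `W G` are in `(θ, θ + 1)` has class a multiple of the class of `E`. -/
theorem result [IsTriangulated C] [∀ n : ℤ, (shiftFunctor C n).Linear K] (hadd : ClsAdditive D)
    (hL : IsExcOrth K L) (σ : PreStab D L) (E G : (Ku L).FullSubcategory)
    (hWE : Ku L (D.W.obj E.obj)) (hWG : Ku L (D.W.obj G.obj)) (e e' θ r : ℝ) (n : Fin 12 → ℝ)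
    (hz : ¬ IsZero E) (hE : σ.P e E) (hE' : σ.P e' ⟨D.W.obj E.obj, hWE⟩)
    (hln : ∀ i, D.form (D.cls (L i)) n = 0) (h2n : D.form (D.cls E.obj) n = 0)
    (he1 : e - 1 < θ) (he2 : θ < e) (hr : r ≠ 0)
    (hZn : σ.Z n = r * Complex.exp ((Real.pi * θ : ℝ) * Complex.I))
    (hG : PhasesIn D L σ θ (θ + 1) G) (hG' : PhasesIn D L σ θ (θ + 1) ⟨D.W.obj G.obj, hWG⟩) :
    ∃ c : ℝ, D.cls G.obj = c • D.cls E.obj := by
  obtain ⟨l, hG, hl⟩ := hG
  obtain ⟨l', hG', hl'⟩ := hG'
  obtain ⟨rfl, _, _⟩ := parallel D hadd L hL σ E E hWE hWE e e' e e' hE hE' hE hE' hz hz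
  exact confine D hadd L hL σ ⟨hz, hE, ⟨_, ⟨Iso.refl _⟩, hE'⟩⟩ θ he1 he2 n hln h2n r hr hZn
    hWG l l' hG hG' hl hl'

end Pool.Agent.Results.MP_184fc9_ag.Confinement
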