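import Pool.Agent.Helper6.KE.Main

namespace Pool.Agent.Results.MP_184fc9_ag.HomologicalDimension

open CategoryTheory CategoryTheory.Limits CategoryTheory.Pretriangulated
open CategoryTheory.Triangulated Pool.Agent.Helper6.KE

universe v u w

/-- Let `C` be a triangulated category of Enriques type (as `D^b(X)` for an Enriques surface `X`)
and `L` a completely orthogonal collection of ten exceptional objects. Let `t` be a bounded
t-structure on the Kuznetsov component `Ku L` whose heart contains no nonzero object that is
numerically trivial in `Ku L` (for instance, the heart of a stability condition with respect to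
the numerical Grothendieck group of `Ku L`). Then there are objects `E`, `F` of the heart and
`k ≥ 4` with `Hom(E, F[k]) ≠ 0`: the heart has homological dimension at least four. -/
theorem result {K : Type w} [Field K] {C : Type u} [Category.{v} C] [Preadditive C]
    [HasZeroObject C] [HasShift C ℤ] [∀ n : ℤ, (shiftFunctor C n).Additive] [Pretriangulated C]
    [Linear K C] [∀ n : ℤ, (shiftFunctor C n).Linear K]
    (D : EnriquesType K C) (L : Fin 10 → C) (hL : IsExcOrth K L)
    (t : TStructure (Ku L).FullSubcategory) (hb : ∀ E, t.bounded E)
    (hnum : ∀ E : (Ku L).FullSubcategory, t.heart E →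
      (∀ F : (Ku L).FullSubcategory, chi K E.obj F.obj = 0) → IsZero E) :
    ∃ E F : (Ku L).FullSubcategory, t.heart E ∧ t.heart F ∧
      ∃ k : ℤ, 4 ≤ k ∧ ∃ f : E ⟶ F⟦k⟧, f ≠ 0 :=
  main D L hL t hb hnum

end Pool.Agent.Results.MP_184fc9_ag.HomologicalDimension
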