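import Pool.Agent.Helper6.NS.Final

namespace Pool.Agent.Results.MP_184fc9_ag.NoStability

open CategoryTheory CategoryTheory.Limits CategoryTheory.Pretriangulated
open CategoryTheory.Triangulated Pool.Agent.Helper6.KE Pool.Agent.Helper6.NS

universe v₁ u₁ v u w

/-- Let `X` be an Enriques surface without smooth rational curves (for instance a very general
Enriques surface), given by its derived category `C = D^b(X)`, its category of coherent sheaves
`A = Coh(X)` and their textbook properties (structure `Unnodal`), and let `L` be a completely
orthogonal collection of ten exceptional line bundles. Then the Kuznetsov component has no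
stability condition with respect to its numerical Grothendieck group. -/
theorem result {K : Type w} [Field K] {C : Type u} [Category.{v} C] [Preadditive C]
    [HasZeroObject C] [HasShift C ℤ] [∀ n : ℤ, (shiftFunctor C n).Additive] [Pretriangulated C]
    [IsTriangulated C] [Linear K C] [∀ n : ℤ, (shiftFunctor C n).Linear K]
    {A : Type u₁} [Category.{v₁} A] [Abelian A]
    (X : Unnodal (C := C) K A) (L : Fin 10 → A) (hL : ∀ k, X.IsLine (L k))
    (hexc : IsExcOrth K (fun k => X.S.ι.obj (L k))) :
    IsEmpty (StabData K (fun k => X.S.ι.obj (L k))) :=
  no_stability X L hL hexc

end Pool.Agent.Results.MP_184fc9_ag.NoStability
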