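import Pool.Agent.Helper6.KE.Confine

namespace Pool.Agent.Results.MP_184fc9_ag.ParallelPhases

open CategoryTheory CategoryTheory.Limits CategoryTheory.Pretriangulated
open CategoryTheory.Triangulated Pool.Agent.Helper6.KE

universe v u w

/-- Let `C` be a triangulated category of Enriques type (as `D^b(X)` for an Enriques surface `X`),
with additive class map, and `L` a completely orthogonal collection of ten exceptional objects.
Call `E` in `Ku L` a test object if its twist `W E` by the canonical bundle is in `Ku L` too.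
For every (pre-)stability condition on `Ku L` with respect to the numerical class: if `E₁`
and `E₂` are nonzero test objects such that `E₁`, `W E₁`, `E₂`, `W E₂` are semistable, then `E₁`
and `W E₁` have the same phase, `E₂` and `W E₂` have the same phase, and the phases of `E₁` and
`E₂` differ by an integer. -/
theorem result {K : Type w} [Field K] {C : Type u} [Category.{v} C] [Preadditive C]
    [HasZeroObject C] [HasShift C ℤ] [∀ n : ℤ, (shiftFunctor C n).Additive] [Pretriangulated C]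
    [IsTriangulated C] [Linear K C] [∀ n : ℤ, (shiftFunctor C n).Linear K]
    (D : EnriquesType K C) (hadd : ClsAdditive D) (L : Fin 10 → C) (hL : IsExcOrth K L)
    (σ : PreStab D L) (E₁ E₂ : (Ku L).FullSubcategory) (hW₁ : Ku L (D.W.obj E₁.obj))
    (hW₂ : Ku L (D.W.obj E₂.obj)) (e₁ e₁' e₂ e₂' : ℝ) (hz₁ : ¬ IsZero E₁) (hz₂ : ¬ IsZero E₂)
    (h₁ : σ.P e₁ E₁) (h₁' : σ.P e₁' ⟨D.W.obj E₁.obj, hW₁⟩) (h₂ : σ.P e₂ E₂)
    (h₂' : σ.P e₂' ⟨D.W.obj E₂.obj, hW₂⟩) :
    e₁' = e₁ ∧ e₂' = e₂ ∧ ∃ n : ℤ, e₁ - e₂ = n :=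
  parallel D hadd L hL σ E₁ E₂ hW₁ hW₂ e₁ e₁' e₂ e₂' h₁ h₁' h₂ h₂' hz₁ hz₂

end Pool.Agent.Results.MP_184fc9_ag.ParallelPhases
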